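import Mathlib

/-!
The generating series of the generalized Bernoulli numbers over a field of characteristic zero, and
vanishing of the polynomial `∑ ψ(a) x^a` at imprimitive roots of unity.
-/

set_option autoImplicit false

namespace Pool.Agent.Q53.GB

open Finset PowerSeries

variable {F : Type*} [Field F]

section

variable [CharZero F]

/-- the generalized Bernoulli number `B_{m,ψ} = N^(m-1) ∑_{1 ≤ a ≤ N} ψ(a) B_m(a/N)` -/
noncomputable def gB (m : ℕ) {N : ℕ} (ψ : DirichletCharacter F N) : F :=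
  (N : F) ^ (m - 1) * ∑ a ∈ Finset.Icc 1 N, ψ (a : ZMod N) *
    (((Polynomial.bernoulli m).eval ((a : ℚ) / N) : ℚ) : F)

/-- the series `∑ B_{m,ψ} t^m / m!` (apart from the term `m = 0`) -/
noncomputable def GG {N : ℕ} (ψ : DirichletCharacter F N) : F⟦X⟧ :=
  ∑ a ∈ Finset.Icc 1 N, C (ψ (a : ZMod N) * (N : F)⁻¹) * rescale (N : F)
    (PowerSeries.mk fun n => Polynomial.aeval ((a : F) / N)
      ((1 / (n.factorial : ℚ)) • Polynomial.bernoulli n))

lemma aeval_bern (n a N : ℕ) : Polynomial.aeval ((a : F) / N)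
    ((1 / (n.factorial : ℚ)) • Polynomial.bernoulli n) =
      (((Polynomial.bernoulli n).eval ((a : ℚ) / N) : ℚ) : F) / (n.factorial : F) := by
  have h1 : ((a : F) / N) = algebraMap ℚ F ((a : ℚ) / N) := by
    rw [eq_ratCast]
    push_cast
    rfl
  rw [h1, Polynomial.aeval_algebraMap_apply, Polynomial.coe_aeval_eq_eval, Polynomial.eval_smul,
    eq_ratCast, smul_eq_mul]
  push_cast
  ring

lemma coeff_GG {N : ℕ} (hN : N ≠ 0) (ψ : DirichletCharacter F N) {m : ℕ} (hm : 1 ≤ m) :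
    coeff m (GG ψ) = gB m ψ / (m.factorial : F) := by
  unfold GG gB
  rw [map_sum, mul_sum, sum_div]
  refine sum_congr rfl fun a _ => ?_
  rw [coeff_C_mul, coeff_rescale, coeff_mk, aeval_bern]
  have hN' : (N : F) ≠ 0 := Nat.cast_ne_zero.mpr hN
  have h2 : (N : F) ^ m = (N : F) ^ (m - 1) * N := by
    rw [← pow_succ]
    congr 1
    omega
  rw [h2]
  field_simp

lemma GG_mul {N : ℕ} (hN : N ≠ 0) (ψ : DirichletCharacter F N) :
    GG ψ * (exp F ^ N - 1) = X * ∑ a ∈ Finset.Icc 1 N, C (ψ (a : ZMod N)) * exp F ^ a := by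
  unfold GG
  rw [sum_mul, mul_sum]
  refine sum_congr rfl fun a _ => ?_
  have hN' : (N : F) ≠ 0 := Nat.cast_ne_zero.mpr hN
  have h1 := congrArg (rescale (N : F)) (Polynomial.bernoulli_generating_function ((a : F) / N))
  rw [map_mul, map_sub, map_one, map_mul, rescale_X, rescale_rescale, ← exp_pow_eq_rescale_exp] at h1
  have h2 : (a : F) / N * N = (a : F) := by field_simp
  rw [h2, ← exp_pow_eq_rescale_exp] at h1
  rw [mul_assoc, h1, map_mul]
  have h3 : C ((N : F)⁻¹) * C (N : F) = (1 : F⟦X⟧) := by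
    rw [← map_mul, inv_mul_cancel₀ hN', map_one]
  linear_combination (X * C (ψ (a : ZMod N)) * exp F ^ a) * h3

end

/-- the polynomial `∑ ψ(a) x^a` -/
noncomputable def PP {N : ℕ} (ψ : DirichletCharacter F N) : Polynomial F :=
  ∑ a ∈ range N, Polynomial.C (ψ (a : ZMod N)) * Polynomial.X ^ a

lemma sum_Icc_range {M : Type*} [AddCommMonoid M] {N : ℕ} (f : ℕ → M) (h0 : f 0 = 0)
    (hN : f N = 0) : ∑ a ∈ Finset.Icc 1 N, f a = ∑ a ∈ range N, f a := by
  have h1 : ∑ a ∈ range (N + 1), f a = ∑ a ∈ range N, f a := by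
    rw [sum_range_succ, hN, add_zero]
  have h2 : ∑ a ∈ range (N + 1), f a = ∑ a ∈ Finset.Icc 1 N, f a := by
    rw [sum_range_succ', h0, add_zero, Finset.range_eq_Ico]
    rw [Finset.sum_Ico_add' f 0 N 1]
    rfl
  rw [← h2, h1]

lemma psi_zero {N : ℕ} (hN : N ≠ 1) (ψ : DirichletCharacter F N) : ψ ((0 : ℕ) : ZMod N) = 0 := by
  rw [Nat.cast_zero]
  exact DirichletCharacter.map_zero' ψ hN

lemma psi_N {N : ℕ} (hN : N ≠ 1) (ψ : DirichletCharacter F N) : ψ ((N : ℕ) : ZMod N) = 0 := by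
  rw [ZMod.natCast_self]
  exact DirichletCharacter.map_zero' ψ hN

lemma GG_mul' [CharZero F] {N : ℕ} (hN : N ≠ 0) (hN1 : N ≠ 1) (ψ : DirichletCharacter F N) :
    GG ψ * (exp F ^ N - 1) = X * Polynomial.aeval (exp F) (PP ψ) := by
  rw [GG_mul hN]
  congr 1
  unfold PP
  rw [map_sum, sum_Icc_range]
  · refine sum_congr rfl fun a _ => ?_
    rw [map_mul, map_pow, Polynomial.aeval_X, Polynomial.aeval_C]
    rfl
  · rw [psi_zero hN1, map_zero, zero_mul]
  · rw [psi_N hN1, map_zero, zero_mul]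

/-- `∑ ψ(a) x^a` vanishes at roots of unity of smaller order -/
lemma PP_root {N d : ℕ} [NeZero N] {ψ : DirichletCharacter F N} (hψ : ψ.IsPrimitive) {ζ : F}
    (hd : d ∣ N) (hdN : d < N) (hζ : ζ ^ d = 1) : (PP ψ).eval ζ = 0 := by
  have hζN : ζ ^ N = 1 := by
    obtain ⟨k, rfl⟩ := hd
    rw [pow_mul, hζ, one_pow]
  have h1 : (PP ψ).eval ζ = gaussSum ψ (AddChar.zmodChar N hζN) := by
    unfold PP gaussSum
    rw [Polynomial.eval_finsetSum]
    rw [← Finset.sum_bij_ne_zero (s := (Finset.univ : Finset (ZMod N))) (t := range N)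
      (f := fun a => ψ a * AddChar.zmodChar N hζN a)
      (g := fun i => Polynomial.eval ζ (Polynomial.C (ψ (i : ZMod N)) * Polynomial.X ^ i))
      (fun a _ _ => a.val)]
    · intro a _ _
      rw [mem_range]
      exact ZMod.val_lt a
    · intro a _ _ b _ _ h
      exact ZMod.val_injective N h
    · intro b hb hne
      rw [mem_range] at hb
      rw [Polynomial.eval_mul, Polynomial.eval_C, Polynomial.eval_pow, Polynomial.eval_X] at hne
      refine ⟨(b : ZMod N), mem_univ _, ?_, ?_⟩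
      · rw [AddChar.zmodChar_apply']
        exact hne
      · exact ZMod.val_cast_of_lt hb
    · intro a _ _
      rw [AddChar.zmodChar_apply]
      simp
  rw [h1]
  apply gaussSum_eq_zero_of_isPrimitive_of_not_isPrimitive _ hψ
  intro h2
  have hd0 : ((d : ℕ) : ZMod N) ≠ 0 := by
    rw [Ne, ZMod.natCast_eq_zero_iff]
    intro h3
    have hd1 : 0 < d := by
      rcases Nat.eq_zero_or_pos d with h | h
      · subst h
        rw [zero_dvd_iff] at hd
        exact absurd hd (NeZero.ne N)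
      · exact h
    exact absurd (Nat.le_of_dvd hd1 h3) (by omega)
  apply h2 hd0
  ext a
  rw [AddChar.mulShift_apply, AddChar.one_apply]
  have h3 : ((d : ℕ) : ZMod N) * a = ((d * a.val : ℕ) : ZMod N) := by
    push_cast
    rw [ZMod.natCast_zmod_val]
  rw [h3, AddChar.zmodChar_apply', pow_mul, hζ, one_pow]

end Pool.Agent.Q53.GB
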