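import Mathlib

/-!
A zero estimate for exponential polynomials with natural frequencies in characteristic `p`
(truncated exponential series).
-/

set_option autoImplicit false

namespace Pool.Agent.Q53.GB

open Finset PowerSeries

variable {κ : Type*} [Field κ]

/-- `(r e^{kx})' e^{-kx}` -/
noncomputable def dd (k : ℕ) (r : Polynomial κ) : Polynomial κ :=
  Polynomial.derivative r + (k : Polynomial κ) * r

/-- the exponential polynomial `∑_{k < n} r_k e^k` -/
noncomputable def xp (e : κ⟦X⟧) (n : ℕ) (r : ℕ → Polynomial κ) : κ⟦X⟧ :=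
  ∑ k ∈ range n, (r k : κ⟦X⟧) * e ^ k

lemma dvd_deriv {M : ℕ} {f : κ⟦X⟧} (h : (X : κ⟦X⟧) ^ M ∣ f) :
    (X : κ⟦X⟧) ^ (M - 1) ∣ d⁄dX κ f := by
  rw [X_pow_dvd_iff] at h ⊢
  intro n hn
  rw [coeff_derivative, h (n + 1) (by omega), zero_mul]

lemma deriv_term (e : κ⟦X⟧) (k : ℕ) (r : Polynomial κ) :
    d⁄dX κ ((r : κ⟦X⟧) * e ^ k) = (dd k r : κ⟦X⟧) * e ^ k +
      (k : κ⟦X⟧) * (r : κ⟦X⟧) * e ^ (k - 1) * (d⁄dX κ e - e) := by
  have h1 : (dd k r : κ⟦X⟧) = ((Polynomial.derivative r : Polynomial κ) : κ⟦X⟧) +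
      (k : κ⟦X⟧) * (r : κ⟦X⟧) := by
    unfold dd
    rw [Polynomial.coe_add, Polynomial.coe_mul]
    congr 2
    exact map_natCast (Polynomial.coeToPowerSeries.ringHom (R := κ)) k
  rw [Derivation.leibniz, Derivation.leibniz_pow, derivative_coe, h1]
  rcases Nat.eq_zero_or_pos k with hk | hk
  · subst hk
    simp
  · obtain ⟨j, rfl⟩ : ∃ j, k = j + 1 := ⟨k - 1, by omega⟩
    simp only [Nat.add_sub_cancel, smul_eq_mul, nsmul_eq_mul, pow_succ]
    ring

lemma step {e : κ⟦X⟧} {M n : ℕ} {r : ℕ → Polynomial κ} (he : (X : κ⟦X⟧) ^ (M - 1) ∣ d⁄dX κ e - e)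
    (h : (X : κ⟦X⟧) ^ M ∣ xp e n r) : (X : κ⟦X⟧) ^ (M - 1) ∣ xp e n (fun k => dd k (r k)) := by
  have h1 := dvd_deriv h
  unfold xp at h1 ⊢
  rw [map_sum] at h1
  have h2 : ∑ k ∈ range n, d⁄dX κ ((r k : κ⟦X⟧) * e ^ k) =
      ∑ k ∈ range n, (dd k (r k) : κ⟦X⟧) * e ^ k +
      (∑ k ∈ range n, (k : κ⟦X⟧) * (r k : κ⟦X⟧) * e ^ (k - 1)) * (d⁄dX κ e - e) := by
    rw [sum_mul, ← sum_add_distrib]
    exact sum_congr rfl fun k _ => deriv_term e k (r k)
  rw [h2] at h1
  exact (dvd_add_left (Dvd.dvd.mul_left he _)).mp h1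

lemma steps {e : κ⟦X⟧} {M n : ℕ} {r : ℕ → Polynomial κ} (he : (X : κ⟦X⟧) ^ (M - 1) ∣ d⁄dX κ e - e)
    (h : (X : κ⟦X⟧) ^ M ∣ xp e n r) (j : ℕ) :
    (X : κ⟦X⟧) ^ (M - j) ∣ xp e n (fun k => (dd k)^[j] (r k)) := by
  induction j with
  | zero => simpa using h
  | succ j ih =>
    have h1 := step (M := M - j) ((pow_dvd_pow _ (by omega)).trans he) ih
    rw [Nat.sub_sub] at h1
    simpa only [Function.iterate_succ_apply'] using h1

lemma dd_degree (k : ℕ) (r : Polynomial κ) (d : ℕ) (h : r.natDegree ≤ d) :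
    (dd k r).natDegree ≤ d := by
  unfold dd
  refine (Polynomial.natDegree_add_le _ _).trans (max_le ?_ ?_)
  · exact (Polynomial.natDegree_derivative_le r).trans (by omega)
  · refine (Polynomial.natDegree_mul_le).trans ?_
    rw [Polynomial.natDegree_natCast]
    omega

lemma dd_degree_iter (k : ℕ) (r : Polynomial κ) (d : ℕ) (h : r.natDegree ≤ d) (j : ℕ) :
    ((dd k)^[j] r).natDegree ≤ d := by
  induction j with
  | zero => simpa using h
  | succ j ih =>
    rw [Function.iterate_succ_apply']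
    exact dd_degree k _ d ih

lemma dd_inj {k : ℕ} (hk : (k : κ) ≠ 0) {r : Polynomial κ} (h : dd k r = 0) : r = 0 := by
  by_contra hr
  have h1 := congrArg (fun q : Polynomial κ => q.coeff r.natDegree) h
  unfold dd at h1
  simp only [Polynomial.coeff_add, Polynomial.coeff_derivative, Polynomial.coeff_zero] at h1
  rw [Polynomial.coeff_eq_zero_of_natDegree_lt (show r.natDegree < r.natDegree + 1 by omega),
    zero_mul, zero_add, ← Polynomial.C_eq_natCast, Polynomial.coeff_C_mul] at h1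
  rcases mul_eq_zero.mp h1 with h2 | h2
  · exact hk h2
  · exact hr (Polynomial.leadingCoeff_eq_zero.mp h2)

lemma dd_inj_iter {k : ℕ} (hk : (k : κ) ≠ 0) {r : Polynomial κ} (j : ℕ)
    (h : (dd k)^[j] r = 0) : r = 0 := by
  induction j with
  | zero => simpa using h
  | succ j ih =>
    rw [Function.iterate_succ_apply'] at h
    exact ih (dd_inj hk h)

lemma dd_zero_iter (r : Polynomial κ) (d : ℕ) (h : r.natDegree ≤ d) :
    (dd 0)^[d + 1] r = 0 := by
  have h1 : (dd 0 : Polynomial κ → Polynomial κ) = Polynomial.derivative := by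
    funext r
    unfold dd
    simp
  rw [h1]
  exact Polynomial.iterate_derivative_eq_zero (by omega)

lemma poly_zero {M d : ℕ} {r : Polynomial κ} (h : r.natDegree ≤ d) (hd : d < M)
    (h2 : (X : κ⟦X⟧) ^ M ∣ (r : κ⟦X⟧)) : r = 0 := by
  rw [X_pow_dvd_iff] at h2
  ext n
  rw [Polynomial.coeff_zero]
  rcases Nat.lt_or_ge n M with h3 | h3
  · simpa using h2 n h3
  · exact Polynomial.coeff_eq_zero_of_natDegree_lt (by omega)

/-- the zero estimate -/
theorem zero_est {e : κ⟦X⟧} (hu : IsUnit e) (d n : ℕ) (hn : ∀ k : ℕ, 1 ≤ k → k < n → (k : κ) ≠ 0) :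
    ∀ (M : ℕ) (r : ℕ → Polynomial κ), (∀ k, k < n → (r k).natDegree ≤ d) →
    (X : κ⟦X⟧) ^ (M - 1) ∣ d⁄dX κ e - e → n * (d + 1) ≤ M → (X : κ⟦X⟧) ^ M ∣ xp e n r →
    ∀ k, k < n → r k = 0 := by
  induction n with
  | zero => intro M r _ _ _ _ k hk; omega
  | succ n ih =>
    intro M r hr he hM h
    have hstep := steps he h (d + 1)
    have h0 : (dd 0)^[d + 1] (r 0) = 0 := dd_zero_iter _ _ (hr 0 (by omega))
    have h1 : xp e (n + 1) (fun k => (dd k)^[d + 1] (r k)) =
        e * xp e n (fun k => (dd (k + 1))^[d + 1] (r (k + 1))) := by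
      unfold xp
      rw [sum_range_succ']
      beta_reduce
      rw [h0, Polynomial.coe_zero, zero_mul, add_zero, mul_sum]
      refine sum_congr rfl fun k _ => ?_
      rw [pow_succ]
      ring
    rw [h1] at hstep
    have h2 : (X : κ⟦X⟧) ^ (M - (d + 1)) ∣
        xp e n (fun k => (dd (k + 1))^[d + 1] (r (k + 1))) := hu.dvd_mul_left.mp hstep
    have hM2 : n * (d + 1) ≤ M - (d + 1) := by
      have : (n + 1) * (d + 1) = n * (d + 1) + (d + 1) := by ring
      omega
    have h3 := ih (fun k hk hk2 => hn k hk (by omega)) (M - (d + 1))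
      (fun k => (dd (k + 1))^[d + 1] (r (k + 1)))
      (fun k hk => dd_degree_iter _ _ d (hr (k + 1) (by omega)) _)
      ((pow_dvd_pow _ (by omega)).trans he) hM2 h2
    have h4 : ∀ k, k < n → r (k + 1) = 0 := by
      intro k hk
      exact dd_inj_iter (hn (k + 1) (by omega) (by omega)) (d + 1) (h3 k hk)
    have h5 : xp e (n + 1) r = (r 0 : κ⟦X⟧) := by
      unfold xp
      rw [sum_range_succ']
      rw [sum_eq_zero]
      · simp
      · intro k hk
        rw [h4 k (mem_range.mp hk)]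
        simp
    rw [h5] at h
    have h6 : r 0 = 0 := by
      refine poly_zero (hr 0 (by omega)) ?_ h
      have : (n + 1) * (d + 1) = n * (d + 1) + (d + 1) := by ring
      omega
    intro k hk
    rcases Nat.eq_zero_or_pos k with h7 | h7
    · rw [h7, h6]
    · obtain ⟨j, rfl⟩ : ∃ j, k = j + 1 := ⟨k - 1, by omega⟩
      exact h4 j (by omega)

end Pool.Agent.Q53.GB
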