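import Mathlib
import Pool.Agent.Q53.GB.ZE

/-!
Quotients of exponential polynomials in characteristic `p` with few nonzero coefficients.
-/

set_option autoImplicit false

namespace Pool.Agent.Q53.GB

open Finset PowerSeries

variable {κ : Type*} [Field κ]

/-- the operator `x d/dx` -/
noncomputable def th (f : κ⟦X⟧) : κ⟦X⟧ := X * d⁄dX κ f

lemma coeff_th (f : κ⟦X⟧) (n : ℕ) : coeff n (th f) = (n : κ) * coeff n f := by
  unfold th
  rcases Nat.eq_zero_or_pos n with h | h
  · subst h
    simp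
  · obtain ⟨j, rfl⟩ : ∃ j, n = j + 1 := ⟨n - 1, by omega⟩
    rw [coeff_succ_X_mul, coeff_derivative]
    push_cast
    ring

lemma th_mul (f g : κ⟦X⟧) : th (f * g) = th f * g + f * th g := by
  unfold th
  rw [Derivation.leibniz]
  simp only [smul_eq_mul]
  ring

lemma th_add (f g : κ⟦X⟧) : th (f + g) = th f + th g := by
  unfold th
  rw [map_add, mul_add]

lemma th_sub (f g : κ⟦X⟧) : th (f - g) = th f - th g := by
  unfold th
  rw [map_sub, mul_sub]

lemma th_pow (f : κ⟦X⟧) (n : ℕ) : th (f ^ (n + 1)) = ((n + 1 : ℕ) : κ⟦X⟧) * f ^ n * th f := by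
  unfold th
  rw [Derivation.leibniz_pow]
  simp only [Nat.add_sub_cancel, smul_eq_mul, nsmul_eq_mul]
  ring

lemma th_dvd {M : ℕ} {f : κ⟦X⟧} (h : (X : κ⟦X⟧) ^ M ∣ f) : (X : κ⟦X⟧) ^ M ∣ th f := by
  rw [X_pow_dvd_iff] at h ⊢
  intro n hn
  rw [coeff_th, h n hn, mul_zero]

/-- evaluation of a polynomial in `x` with coefficients in `κ[t]` at `t = X`, `x = e` -/
noncomputable def ev (e : κ⟦X⟧) : Polynomial (Polynomial κ) →+* κ⟦X⟧ :=
  Polynomial.eval₂RingHom (Polynomial.coeToPowerSeries.ringHom (R := κ)) e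

lemma ev_monomial (e : κ⟦X⟧) (k : ℕ) (r : Polynomial κ) :
    ev e (Polynomial.monomial k r) = (r : κ⟦X⟧) * e ^ k := by
  unfold ev
  rw [Polynomial.coe_eval₂RingHom, Polynomial.eval₂_monomial]
  rfl

lemma ev_C (e : κ⟦X⟧) (r : Polynomial κ) : ev e (Polynomial.C r) = (r : κ⟦X⟧) := by
  have := ev_monomial e 0 r
  simpa using this

lemma ev_eq_xp (e : κ⟦X⟧) (R : Polynomial (Polynomial κ)) (n : ℕ) (hn : ∀ k, n ≤ k → R.coeff k = 0) :
    ev e R = xp e n R.coeff := by
  have h1 : R = ∑ k ∈ range n, Polynomial.monomial k (R.coeff k) := by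
    ext1 k
    rw [Polynomial.finsetSum_coeff]
    simp only [Polynomial.coeff_monomial]
    rw [sum_ite_eq']
    split_ifs with h
    · rfl
    · rw [mem_range, not_lt] at h
      exact hn k h
  conv_lhs => rw [h1]
  rw [map_sum]
  exact sum_congr rfl fun k _ => ev_monomial e k _

/-- the derivation with `D t = t`, `D x = t x` -/
noncomputable def DD (R : Polynomial (Polynomial κ)) : Polynomial (Polynomial κ) :=
  R.sum fun k r => Polynomial.monomial k
    (Polynomial.X * Polynomial.derivative r + (k : Polynomial κ) * Polynomial.X * r)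

lemma coeff_DD (R : Polynomial (Polynomial κ)) (k : ℕ) : (DD R).coeff k =
    Polynomial.X * Polynomial.derivative (R.coeff k) + (k : Polynomial κ) * Polynomial.X * R.coeff k := by
  unfold DD
  rw [Polynomial.sum_def, Polynomial.finsetSum_coeff]
  simp only [Polynomial.coeff_monomial]
  rw [sum_ite_eq']
  split_ifs with h
  · rfl
  · rw [Polynomial.notMem_support_iff] at h
    rw [h]
    simp

lemma DD_add (R S : Polynomial (Polynomial κ)) : DD (R + S) = DD R + DD S := by
  ext1 k
  rw [Polynomial.coeff_add, coeff_DD, coeff_DD, coeff_DD, Polynomial.coeff_add,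
    Polynomial.derivative_add]
  ring

lemma DD_monomial (k : ℕ) (r : Polynomial κ) : DD (Polynomial.monomial k r) =
    Polynomial.monomial k (Polynomial.X * Polynomial.derivative r +
      (k : Polynomial κ) * Polynomial.X * r) := by
  ext1 j
  rw [coeff_DD, Polynomial.coeff_monomial, Polynomial.coeff_monomial]
  split_ifs with h
  · rw [h]
  · simp

lemma th_ev {e : κ⟦X⟧} {M : ℕ} (he : (X : κ⟦X⟧) ^ (M - 1) ∣ d⁄dX κ e - e)
    (R : Polynomial (Polynomial κ)) : (X : κ⟦X⟧) ^ M ∣ th (ev e R) - ev e (DD R) := by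
  induction R using Polynomial.induction_on' with
  | add p q hp hq =>
    rw [DD_add, map_add, map_add, th_add]
    have : th (ev e p) + th (ev e q) - (ev e (DD p) + ev e (DD q)) =
        (th (ev e p) - ev e (DD p)) + (th (ev e q) - ev e (DD q)) := by ring
    rw [this]
    exact dvd_add hp hq
  | monomial k r =>
    rw [DD_monomial, ev_monomial, ev_monomial]
    have h1 : ((Polynomial.X * Polynomial.derivative r + (k : Polynomial κ) * Polynomial.X * r :
        Polynomial κ) : κ⟦X⟧) = X * ((dd k r : Polynomial κ) : κ⟦X⟧) := by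
      rw [← Polynomial.coe_X, ← Polynomial.coe_mul]
      congr 1
      unfold dd
      ring
    rw [h1]
    unfold th
    rw [deriv_term]
    have h2 : X * ((dd k r : κ⟦X⟧) * e ^ k + (k : κ⟦X⟧) * (r : κ⟦X⟧) * e ^ (k - 1) *
        (d⁄dX κ e - e)) - X * (dd k r : κ⟦X⟧) * e ^ k =
        (X * (d⁄dX κ e - e)) * ((k : κ⟦X⟧) * (r : κ⟦X⟧) * e ^ (k - 1)) := by ring
    rw [h2]
    apply Dvd.dvd.mul_right
    rcases Nat.eq_zero_or_pos M with h | h
    · subst h
      simp
    · obtain ⟨j, rfl⟩ : ∃ j, M = j + 1 := ⟨M - 1, by omega⟩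
      rw [pow_succ']
      exact mul_dvd_mul_left _ (by simpa using he)

/-- at most `n` frequencies, coefficients of degree at most `d` -/
def Bd (n d : ℕ) (R : Polynomial (Polynomial κ)) : Prop :=
  ∀ k, (R.coeff k).natDegree ≤ d ∧ (n ≤ k → R.coeff k = 0)

lemma Bd.mono {n d n' d' : ℕ} {R : Polynomial (Polynomial κ)} (h : Bd n d R) (hn : n ≤ n')
    (hd : d ≤ d') : Bd n' d' R :=
  fun k => ⟨(h k).1.trans hd, fun hk => (h k).2 (hn.trans hk)⟩

lemma Bd.sub {n d : ℕ} {R S : Polynomial (Polynomial κ)} (h : Bd n d R) (h' : Bd n d S) :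
    Bd n d (R - S) := by
  intro k
  rw [Polynomial.coeff_sub]
  refine ⟨(Polynomial.natDegree_sub_le _ _).trans (max_le (h k).1 (h' k).1), fun hk => ?_⟩
  rw [(h k).2 hk, (h' k).2 hk, sub_zero]

lemma Bd.DD {n d : ℕ} {R : Polynomial (Polynomial κ)} (h : Bd n d R) :
    Bd n (d + 1) (Pool.Agent.Q53.GB.DD R) := by
  intro k
  rw [coeff_DD]
  refine ⟨(Polynomial.natDegree_add_le _ _).trans (max_le ?_ ?_), fun hk => ?_⟩
  · refine (Polynomial.natDegree_mul_le).trans ?_
    have h1 := Polynomial.natDegree_derivative_le (R.coeff k)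
    have h2 := (h k).1
    have h3 := Polynomial.natDegree_X_le (R := κ)
    omega
  · refine (Polynomial.natDegree_mul_le).trans ?_
    have h1 : ((k : Polynomial κ) * Polynomial.X).natDegree ≤ 1 := by
      refine (Polynomial.natDegree_mul_le).trans ?_
      rw [Polynomial.natDegree_natCast]
      have h3 := Polynomial.natDegree_X_le (R := κ)
      omega
    have h2 := (h k).1
    omega
  · rw [(h k).2 hk]
    simp

lemma Bd.C_mul {n d : ℕ} {R : Polynomial (Polynomial κ)} (h : Bd n d R) (c : Polynomial κ) (m : ℕ)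
    (hc : c.natDegree ≤ m) : Bd n (d + m) (Polynomial.C c * R) := by
  intro k
  rw [Polynomial.coeff_C_mul]
  refine ⟨(Polynomial.natDegree_mul_le).trans ?_, fun hk => by rw [(h k).2 hk, mul_zero]⟩
  have := (h k).1
  omega

lemma Bd.map_mul {n d m : ℕ} {R : Polynomial (Polynomial κ)} (h : Bd n d R) {q : Polynomial κ}
    (hq : q.natDegree ≤ m) : Bd (n + m) d (q.map Polynomial.C * R) := by
  intro k
  rw [Polynomial.coeff_mul]
  constructor
  · apply Polynomial.natDegree_sum_le_of_forall_le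
    intro x _
    rw [Polynomial.coeff_map]
    exact (Polynomial.natDegree_C_mul_le _ _).trans (h x.2).1
  · intro hk
    apply sum_eq_zero
    intro x hx
    rw [HasAntidiagonal.mem_antidiagonal] at hx
    rw [Polynomial.coeff_map]
    rcases Nat.lt_or_ge m x.1 with h1 | h1
    · rw [Polynomial.coeff_eq_zero_of_natDegree_lt (by omega)]
      simp
    · rw [(h x.2).2 (by omega), mul_zero]

lemma DD_map (Q : Polynomial κ) : DD (Q.map Polynomial.C) =
    Polynomial.C Polynomial.X * (Polynomial.X * Polynomial.derivative Q).map Polynomial.C := by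
  ext1 k
  rw [coeff_DD, Polynomial.coeff_map, Polynomial.coeff_C_mul, Polynomial.coeff_map,
    Polynomial.derivative_C]
  have h1 : (Polynomial.X * Polynomial.derivative Q).coeff k = (k : κ) * Q.coeff k := by
    rcases Nat.eq_zero_or_pos k with h | h
    · subst h
      simp
    · obtain ⟨j, rfl⟩ : ∃ j, k = j + 1 := ⟨k - 1, by omega⟩
      rw [Polynomial.coeff_X_mul, Polynomial.coeff_derivative]
      push_cast
      ring
  rw [h1, map_mul, map_natCast]
  ring

/-- `∏_{s ∈ S} (x d/dx - s) f` -/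
noncomputable def fS (S : Finset ℕ) (f : κ⟦X⟧) : κ⟦X⟧ :=
  PowerSeries.mk fun n => (∏ s ∈ S, ((n : κ) - s)) * coeff n f

lemma fS_insert {S : Finset ℕ} {s : ℕ} (hs : s ∉ S) (f : κ⟦X⟧) :
    fS (insert s S) f = th (fS S f) - (s : κ⟦X⟧) * fS S f := by
  ext n
  have h1 : (s : κ⟦X⟧) = PowerSeries.C (s : κ) := (map_natCast _ _).symm
  rw [map_sub, coeff_th, h1, coeff_C_mul]
  unfold fS
  rw [coeff_mk, coeff_mk, prod_insert hs]
  ring

lemma fS_empty (f : κ⟦X⟧) : fS ∅ f = f := by
  ext n
  unfold fS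
  rw [coeff_mk]
  simp

lemma fS_dvd {S : Finset ℕ} {f : κ⟦X⟧} {K : ℕ} (h : ∀ j, j < K → coeff j f ≠ 0 → j ∈ S) :
    (X : κ⟦X⟧) ^ K ∣ fS S f := by
  rw [X_pow_dvd_iff]
  intro j hj
  unfold fS
  rw [coeff_mk]
  by_cases h1 : coeff j f = 0
  · rw [h1, mul_zero]
  · rw [prod_eq_zero (h j hj h1) (sub_self _), zero_mul]

theorem exists_R {e : κ⟦X⟧} {M : ℕ} (he : (X : κ⟦X⟧) ^ (M - 1) ∣ d⁄dX κ e - e)
    {Q : Polynomial κ} {m : ℕ} (hQ : Q.natDegree ≤ m) {η : κ} (hη0 : η ≠ 0) (hQη : Q.eval η = 0)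
    (hQ' : (Polynomial.derivative Q).eval η ≠ 0) {f : κ⟦X⟧} {R0 : Polynomial (Polynomial κ)}
    {n0 d0 : ℕ} (hB : Bd n0 d0 R0) (hR0 : R0.eval (Polynomial.C η) ≠ 0)
    (hf : (X : κ⟦X⟧) ^ M ∣ ev e (Q.map Polynomial.C) * f - ev e R0) (S : Finset ℕ)
    (hS : ∀ k : ℕ, 1 ≤ k → k ≤ S.card → (k : κ) ≠ 0) :
    ∃ R : Polynomial (Polynomial κ), Bd (n0 + m * S.card) (d0 + S.card) R ∧
      R.eval (Polynomial.C η) ≠ 0 ∧
      (X : κ⟦X⟧) ^ M ∣ ev e (Q.map Polynomial.C) ^ (S.card + 1) * fS S f - ev e R := by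
  induction S using Finset.induction_on with
  | empty =>
    refine ⟨R0, ?_, hR0, ?_⟩
    · simpa using hB
    · rw [fS_empty]
      simpa using hf
  | insert s S hs ih =>
    rw [card_insert_of_notMem hs] at hS ⊢
    obtain ⟨R, hR1, hR2, hR3⟩ := ih (fun k h1 h2 => hS k h1 (by omega))
    set u := S.card with hu
    set Qe := ev e (Q.map Polynomial.C) with hQe
    set g := fS S f with hg
    have hXQ : (Polynomial.X * Polynomial.derivative Q).natDegree ≤ m := by
      refine (Polynomial.natDegree_mul_le).trans ?_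
      rcases Nat.eq_zero_or_pos Q.natDegree with h | h
      · have : Polynomial.derivative Q = 0 := Polynomial.derivative_of_natDegree_zero h
        exact absurd (by rw [this]; simp) hQ'
      · have h1 := Polynomial.natDegree_derivative_le Q
        have h3 := Polynomial.natDegree_X_le (R := κ)
        omega
    refine ⟨Q.map Polynomial.C * (DD R - Polynomial.C (s : Polynomial κ) * R) -
      Polynomial.C ((((u + 1 : ℕ) : Polynomial κ)) * Polynomial.X) *
        ((Polynomial.X * Polynomial.derivative Q).map Polynomial.C * R), ?_, ?_, ?_⟩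
    · -- bounds
      have h1 : Bd (n0 + m * u + m) (d0 + u + 1)
          (Q.map Polynomial.C * (DD R - Polynomial.C (s : Polynomial κ) * R)) := by
        apply Bd.map_mul _ hQ
        apply Bd.sub hR1.DD
        have := hR1.C_mul (s : Polynomial κ) 0 (by rw [Polynomial.natDegree_natCast])
        exact this.mono le_rfl (by omega)
      have h2 : Bd (n0 + m * u + m) (d0 + u + 1)
          (Polynomial.C ((((u + 1 : ℕ) : Polynomial κ)) * Polynomial.X) *
        ((Polynomial.X * Polynomial.derivative Q).map Polynomial.C * R)) := by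
        apply Bd.C_mul (hR1.map_mul hXQ)
        refine (Polynomial.natDegree_mul_le).trans ?_
        rw [Polynomial.natDegree_natCast]
        have h3 := Polynomial.natDegree_X_le (R := κ)
        omega
      have h3 := h1.sub h2
      have e1 : n0 + m * (u + 1) = n0 + m * u + m := by ring
      rw [e1, ← add_assoc]
      exact h3
    · -- nonvanishing at `η`
      rw [Polynomial.eval_sub, Polynomial.eval_mul, Polynomial.eval_mul, Polynomial.eval_mul,
        Polynomial.eval_C, Polynomial.eval_map, Polynomial.eval_map]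
      have h1 : ∀ q : Polynomial κ, q.eval₂ Polynomial.C (Polynomial.C η) = Polynomial.C (q.eval η) := by
        intro q
        rw [Polynomial.eval₂_at_apply]
      rw [h1, h1, hQη, map_zero, zero_mul, zero_sub, neg_ne_zero]
      have h2 : ((u + 1 : ℕ) : Polynomial κ) ≠ 0 := by
        rw [← Polynomial.C_eq_natCast]
        exact Polynomial.C_ne_zero.mpr (hS (u + 1) (by omega) le_rfl)
      refine mul_ne_zero (mul_ne_zero h2 Polynomial.X_ne_zero) (mul_ne_zero ?_ hR2)
      rw [Polynomial.C_ne_zero, Polynomial.eval_mul, Polynomial.eval_X]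
      exact mul_ne_zero hη0 hQ'
    · -- the congruence
      have h1 := th_dvd hR3
      rw [th_sub, th_mul, th_pow] at h1
      have h2 := th_ev he R
      have h3 := th_ev he (Q.map Polynomial.C)
      rw [DD_map, map_mul, ev_C, Polynomial.coe_X] at h3
      have e1 : ev e (Q.map Polynomial.C * (DD R - Polynomial.C (s : Polynomial κ) * R) -
          Polynomial.C ((((u + 1 : ℕ) : Polynomial κ)) * Polynomial.X) *
          ((Polynomial.X * Polynomial.derivative Q).map Polynomial.C * R)) =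
          ev e (Q.map Polynomial.C) * (ev e (DD R) - ((s : Polynomial κ) : κ⟦X⟧) * ev e R) -
          ((((u + 1 : ℕ) : Polynomial κ) : κ⟦X⟧) * X) *
          (ev e ((Polynomial.X * Polynomial.derivative Q).map Polynomial.C) * ev e R) := by
        rw [RingHom.map_sub, RingHom.map_mul, RingHom.map_sub, RingHom.map_mul, ev_C,
          RingHom.map_mul (ev e) (Polynomial.C _) _, ev_C, RingHom.map_mul, Polynomial.coe_mul,
          Polynomial.coe_X]
      rw [fS_insert hs, e1]
      have c1 : (((s : ℕ) : Polynomial κ) : κ⟦X⟧) = (s : κ⟦X⟧) :=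
        map_natCast (Polynomial.coeToPowerSeries.ringHom (R := κ)) s
      have c2 : (((u + 1 : ℕ) : Polynomial κ) : κ⟦X⟧) = ((u + 1 : ℕ) : κ⟦X⟧) :=
        map_natCast (Polynomial.coeToPowerSeries.ringHom (R := κ)) (u + 1)
      rw [c1, c2, ← hQe, ← hg]
      rw [← hQe] at h3
      generalize ev e ((Polynomial.X * Polynomial.derivative Q).map Polynomial.C) = Z at h3 ⊢
      generalize ev e (DD R) = Y at h2 ⊢
      generalize ev e R = E at h1 h2 hR3 ⊢
      generalize th g = tg at h1 ⊢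
      generalize th Qe = tQ at h1 h3 ⊢
      generalize th E = tE at h1 h2 ⊢
      generalize ((u + 1 : ℕ) : κ⟦X⟧) = U at h1 ⊢
      generalize ((s : ℕ) : κ⟦X⟧) = σ
      have key : Qe ^ (u + 1 + 1) * (tg - σ * g) - (Qe * (Y - σ * E) - U * X * (Z * E)) =
          Qe * ((U * Qe ^ u * tQ * g + Qe ^ (u + 1) * tg) - tE) + Qe * (tE - Y)
          - (U * tQ + σ * Qe) * (Qe ^ (u + 1) * g - E) - U * E * (tQ - X * Z) := by
        ring
      rw [key]
      exact dvd_sub (dvd_sub (dvd_add (h1.mul_left _) (h2.mul_left _)) (hR3.mul_left _))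
        (h3.mul_left _)

/-- a quotient of exponential polynomials has many nonzero coefficients -/
theorem core {e : κ⟦X⟧} (hue : IsUnit e) {K : ℕ} (he : (X : κ⟦X⟧) ^ (K - 1) ∣ d⁄dX κ e - e)
    {Q : Polynomial κ} {m : ℕ} (hQ : Q.natDegree ≤ m) {η : κ} (hη0 : η ≠ 0) (hQη : Q.eval η = 0)
    (hQ' : (Polynomial.derivative Q).eval η ≠ 0) {f : κ⟦X⟧} {R0 : Polynomial (Polynomial κ)}
    {n0 d0 : ℕ} (hB : Bd n0 d0 R0) (hR0 : R0.eval (Polynomial.C η) ≠ 0)
    (hf : (X : κ⟦X⟧) ^ K ∣ ev e (Q.map Polynomial.C) * f - ev e R0) (S : Finset ℕ)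
    (hS : ∀ j, j < K → coeff j f ≠ 0 → j ∈ S)
    (hchar : ∀ k : ℕ, 1 ≤ k → k < K → (k : κ) ≠ 0) :
    K < (n0 + m * S.card) * (d0 + S.card + 1) := by
  by_contra hcon
  push Not at hcon
  have hn0 : 1 ≤ n0 := by
    by_contra h
    apply hR0
    have : R0 = 0 := by
      ext1 k
      rw [(hB k).2 (by omega), Polynomial.coeff_zero]
    rw [this, Polynomial.eval_zero]
  have h1 : S.card + 1 ≤ K := by
    refine le_trans ?_ hcon
    calc S.card + 1 ≤ 1 * (d0 + S.card + 1) := by omega
      _ ≤ (n0 + m * S.card) * (d0 + S.card + 1) := Nat.mul_le_mul_right _ (by omega)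
  have h2 : n0 + m * S.card ≤ K := by
    refine le_trans ?_ hcon
    exact Nat.le_mul_of_pos_right _ (by omega)
  obtain ⟨R, hR1, hR2, hR3⟩ := exists_R he hQ hη0 hQη hQ' hB hR0 hf S
    (fun k h3 h4 => hchar k h3 (by omega))
  have h3 : (X : κ⟦X⟧) ^ K ∣ ev e R := by
    have h4 := (fS_dvd hS).mul_left (ev e (Q.map Polynomial.C) ^ (S.card + 1))
    have h5 := dvd_sub h4 hR3
    simpa using h5
  rw [ev_eq_xp e R (n0 + m * S.card) (fun k hk => (hR1 k).2 hk)] at h3
  have h4 := zero_est hue (d0 + S.card) (n0 + m * S.card)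
    (fun k h5 h6 => hchar k h5 (by omega)) K R.coeff (fun k _ => (hR1 k).1) he hcon h3
  apply hR2
  have : R = 0 := by
    ext1 k
    rcases Nat.lt_or_ge k (n0 + m * S.card) with h5 | h5
    · rw [h4 k h5, Polynomial.coeff_zero]
    · rw [(hR1 k).2 h5, Polynomial.coeff_zero]
  rw [this, Polynomial.eval_zero]

end Pool.Agent.Q53.GB
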