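import Mathlib
import Pool.Agent.Q53.GB.Bern

/-!
The polynomial `∑ ψ(a) x^a` of a primitive character is divisible by `(x^N - 1) / Φ_N(x)`.
-/

set_option autoImplicit false

namespace Pool.Agent.Q53.GB

open Finset Polynomial

/-- `(x^N - 1) / Φ_N(x)` -/
noncomputable def Psi (N : ℕ) (R : Type*) [CommRing R] : Polynomial R :=
  ∏ d ∈ N.properDivisors, cyclotomic d R

lemma Psi_mul {N : ℕ} (hN : 0 < N) (R : Type*) [CommRing R] :
    cyclotomic N R * Psi N R = X ^ N - 1 := by
  rw [← prod_cyclotomic_eq_X_pow_sub_one hN R, ← Nat.insert_self_properDivisors hN.ne',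
    prod_insert (by simp)]
  rfl

lemma Psi_monic (N : ℕ) (R : Type*) [CommRing R] : (Psi N R).Monic :=
  monic_prod_of_monic _ _ fun d _ => cyclotomic.monic d R

lemma Psi_map (N : ℕ) {R S : Type*} [CommRing R] [CommRing S] (f : R →+* S) :
    (Psi N R).map f = Psi N S := by
  unfold Psi
  rw [Polynomial.map_prod]
  exact prod_congr rfl fun d _ => map_cyclotomic d f

lemma Psi_natDegree {N : ℕ} (hN : 0 < N) (R : Type*) [CommRing R] [Nontrivial R] :
    N.totient + (Psi N R).natDegree = N := by
  have h1 := congrArg natDegree (Psi_mul hN R)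
  rw [(cyclotomic.monic N R).natDegree_mul (Psi_monic N R), natDegree_cyclotomic,
    ← C_1, natDegree_X_pow_sub_C] at h1
  exact h1

lemma isPrimitive_comp {F E : Type*} [Field F] [Field E] (i : F →+* E) {N : ℕ} [NeZero N]
    {ψ : DirichletCharacter F N} (h : ψ.IsPrimitive) :
    DirichletCharacter.IsPrimitive (ψ.ringHomComp i : DirichletCharacter E N) := by
  have key : ∀ d, DirichletCharacter.FactorsThrough (ψ.ringHomComp i : DirichletCharacter E N) d ↔
      ψ.FactorsThrough d := by
    intro d
    by_cases hd : d ∣ N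
    · rw [DirichletCharacter.factorsThrough_iff_ker_unitsMap hd,
        DirichletCharacter.factorsThrough_iff_ker_unitsMap hd]
      have : ∀ u : (ZMod N)ˣ, u ∈ (MulChar.toUnitHom (ψ.ringHomComp i)).ker ↔
          u ∈ (MulChar.toUnitHom ψ).ker := by
        intro u
        rw [MonoidHom.mem_ker, MonoidHom.mem_ker, ← Units.val_inj, ← Units.val_inj,
          MulChar.coe_toUnitHom, MulChar.coe_toUnitHom, MulChar.ringHomComp_apply, Units.val_one,
          Units.val_one]
        constructor
        · intro h1
          exact i.injective (by rw [h1, map_one])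
        · intro h1
          rw [h1, map_one]
      constructor
      · intro h1 u hu
        exact (this u).mp (h1 hu)
      · intro h1 u hu
        exact (this u).mpr (h1 hu)
    · constructor
      · intro h1
        exact absurd h1.dvd hd
      · intro h1
        exact absurd h1.dvd hd
  have h2 : DirichletCharacter.conductor (ψ.ringHomComp i : DirichletCharacter E N) =
      ψ.conductor := by
    unfold DirichletCharacter.conductor
    congr 1
    ext d
    exact key d
  unfold DirichletCharacter.IsPrimitive at h ⊢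
  rw [h2, h]

lemma PP_map {F E : Type*} [Field F] [Field E] (i : F →+* E) {N : ℕ}
    (ψ : DirichletCharacter F N) : (PP ψ).map i = PP (ψ.ringHomComp i : DirichletCharacter E N) := by
  unfold PP
  rw [Polynomial.map_sum]
  refine sum_congr rfl fun a _ => ?_
  rw [Polynomial.map_mul, map_C, Polynomial.map_pow, map_X]
  rfl

theorem Psi_dvd {F : Type*} [Field F] [CharZero F] {N : ℕ} [NeZero N] {ψ : DirichletCharacter F N}
    (hψ : ψ.IsPrimitive) : Psi N F ∣ PP ψ := by
  classical
  set E := AlgebraicClosure F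
  have hN : 0 < N := NeZero.pos N
  rw [← Polynomial.map_dvd_map' (algebraMap F E), Psi_map, PP_map]
  have hψ' := isPrimitive_comp (algebraMap F E) hψ
  set ψ' : DirichletCharacter E N := ψ.ringHomComp (algebraMap F E) with hψ'def
  have : CharZero E := charZero_of_injective_algebraMap (algebraMap F E).injective
  have : NeZero ((N : ℕ) : E) := ⟨Nat.cast_ne_zero.mpr (NeZero.ne N)⟩
  obtain ⟨ζ, hζ⟩ := HasEnoughRootsOfUnity.exists_primitiveRoot E N
  have hsub : primitiveRoots N E ⊆ nthRootsFinset N (1 : E) := by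
    intro μ hμ
    rw [mem_primitiveRoots hN] at hμ
    rw [mem_nthRootsFinset hN]
    exact hμ.pow_eq_one
  have h1 : Psi N E = ∏ μ ∈ nthRootsFinset N (1 : E) \ primitiveRoots N E, (X - C μ) := by
    have h2 := Psi_mul hN E
    rw [X_pow_sub_one_eq_prod hN hζ, ← Finset.prod_sdiff hsub,
      cyclotomic_eq_prod_X_sub_primitiveRoots hζ, mul_comm] at h2
    exact mul_right_cancel₀ (Finset.prod_ne_zero_iff.mpr fun μ _ => X_sub_C_ne_zero μ) h2
  rw [h1]
  apply Finset.prod_dvd_of_coprime
  · intro a _ b _ hab
    exact isCoprime_X_sub_C_of_isUnit_sub (sub_ne_zero.mpr hab).isUnit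
  · intro μ hμ
    rw [mem_sdiff, mem_nthRootsFinset hN, mem_primitiveRoots hN] at hμ
    rw [dvd_iff_isRoot, IsRoot.def]
    refine PP_root hψ' (d := orderOf μ) (orderOf_dvd_of_pow_eq_one hμ.1) ?_ (pow_orderOf_eq_one μ)
    refine lt_of_le_of_ne (Nat.le_of_dvd hN (orderOf_dvd_of_pow_eq_one hμ.1)) ?_
    intro h3
    apply hμ.2
    rw [← h3]
    exact IsPrimitiveRoot.orderOf μ

end Pool.Agent.Q53.GB
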