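import Mathlib
import Pool.Agent.Q53.GB.Core
import Pool.Agent.Q53.GB.Div

/-!
From the numbers `B_{m,ψ} / m!` to power series over the residue field.
-/

set_option autoImplicit false

namespace Pool.Agent.Q53.GB

open Finset PowerSeries

section

variable {F : Type*} [Field F] (A : ValuationSubring F)

/-- algebraic closure of the residue field -/
abbrev LL := AlgebraicClosure (IsLocalRing.ResidueField A)

/-- reduction -/
noncomputable def ph : A →+* LL A :=
  (algebraMap (IsLocalRing.ResidueField A) (LL A)).comp (IsLocalRing.residue A)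

lemma ph_ne (a : A) : ph A a ≠ 0 ↔ IsUnit a := by
  unfold ph
  rw [RingHom.comp_apply, Ne, _root_.map_eq_zero, ← Ne, IsLocalRing.residue_ne_zero_iff_isUnit]

variable {p : ℕ}

lemma ph_p (hA : A.valuation (p : F) < 1) : ((p : ℕ) : LL A) = 0 := by
  rw [← map_natCast (ph A)]
  by_contra h
  rw [← Ne, ph_ne, ValuationSubring.valuation_eq_one_iff] at h
  have h2 : ((p : A) : F) = (p : F) := by norm_cast
  rw [h2] at h
  rw [h] at hA
  exact lt_irrefl _ hA

lemma cast_ne (hA : A.valuation (p : F) < 1) {k : ℕ} (hk : k.Coprime p) : (k : LL A) ≠ 0 := by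
  intro h
  obtain ⟨a, b, hab⟩ := Nat.isCoprime_iff_coprime.mpr hk
  have h1 := congrArg (fun z : ℤ => (z : LL A)) hab
  simp only [Int.cast_add, Int.cast_mul, Int.cast_natCast, Int.cast_one] at h1
  rw [h, ph_p A hA, mul_zero, mul_zero, add_zero] at h1
  exact zero_ne_one h1

lemma cast_unit (hA : A.valuation (p : F) < 1) {k : ℕ} (hk : k.Coprime p) : IsUnit (k : A) := by
  rw [← ph_ne, map_natCast]
  exact cast_ne A hA hk

lemma fact_unit (hp : p.Prime) (hA : A.valuation (p : F) < 1) {n : ℕ} (hn : n < p) :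
    IsUnit ((n.factorial : ℕ) : A) :=
  cast_unit A hA (hp.coprime_factorial_of_lt hn).symm

/-- the truncated exponential series over `A` -/
noncomputable def eA (p : ℕ) : A⟦X⟧ :=
  PowerSeries.mk fun n => if n < p then Ring.inverse ((n.factorial : ℕ) : A) else 0

lemma coeff_map_eA (hp : p.Prime) (hA : A.valuation (p : F) < 1) {E : Type*} [Field E]
    (f : A →+* E) {n : ℕ} (hn : n < p) :
    coeff n (PowerSeries.map f (eA A p)) = ((n.factorial : ℕ) : E)⁻¹ := by
  rw [coeff_map]
  unfold eA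
  rw [coeff_mk, if_pos hn]
  have h1 := Ring.inverse_mul_cancel _ (fact_unit A hp hA hn)
  have h2 := congrArg f h1
  rw [map_mul, map_one, map_natCast] at h2
  exact eq_inv_of_mul_eq_one_left h2

lemma const_eA (hp : p.Prime) : constantCoeff (eA A p) = 1 := by
  rw [← coeff_zero_eq_constantCoeff_apply]
  unfold eA
  rw [coeff_mk, if_pos hp.pos]
  simp

/-- the truncated exponential series over the residue field -/
noncomputable def eL (p : ℕ) : (LL A)⟦X⟧ := PowerSeries.map (ph A) (eA A p)

lemma eL_deriv (hp : p.Prime) (hA : A.valuation (p : F) < 1) :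
    (X : (LL A)⟦X⟧) ^ (p - 1) ∣ d⁄dX (LL A) (eL A p) - eL A p := by
  rw [X_pow_dvd_iff]
  intro n hn
  unfold eL
  rw [map_sub, coeff_derivative, coeff_map_eA A hp hA _ (by omega),
    coeff_map_eA A hp hA _ (by omega), Nat.factorial_succ, sub_eq_zero]
  have h1 : ((n + 1 : ℕ) : LL A) ≠ 0 := by
    apply cast_ne A hA
    exact (Nat.coprime_of_lt_prime (by omega) (by omega) hp).symm
  have h2 : ((n.factorial : ℕ) : LL A) ≠ 0 := by
    apply cast_ne A hA
    exact (hp.coprime_factorial_of_lt (by omega)).symm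
  push_cast at h1 ⊢
  field_simp

lemma eL_unit (hp : p.Prime) (hA : A.valuation (p : F) < 1) : IsUnit (eL A p) := by
  rw [PowerSeries.isUnit_iff_constantCoeff]
  unfold eL
  rw [← coeff_zero_eq_constantCoeff_apply, coeff_map_eA A hp hA _ hp.pos]
  simp

/-! ### the quotient -/

lemma map_eval₂ {R S : Type*} [CommRing R] [CommRing S] (f : R →+* S) (e : R⟦X⟧)
    (q : Polynomial R) : PowerSeries.map f (q.eval₂ PowerSeries.C e) =
      (q.map f).eval₂ PowerSeries.C (PowerSeries.map f e) := by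
  rw [Polynomial.hom_eval₂, Polynomial.eval₂_map]
  congr 1
  ext1 a
  simp

lemma ev_map {κ : Type*} [Field κ] (e : κ⟦X⟧) (q : Polynomial κ) :
    ev e (q.map Polynomial.C) = q.eval₂ PowerSeries.C e := by
  unfold ev
  rw [Polynomial.coe_eval₂RingHom, Polynomial.eval₂_map]
  congr 1
  ext1 a
  simp

lemma const_eval₂ {R : Type*} [CommRing R] {e : R⟦X⟧} (he : constantCoeff e = 1)
    (q : Polynomial R) : constantCoeff (q.eval₂ PowerSeries.C e) = q.eval 1 := by
  rw [Polynomial.hom_eval₂, he]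
  have : (constantCoeff (R := R)).comp (PowerSeries.C (R := R)) = RingHom.id R := by
    ext1 a
    simp
  rw [this]
  rfl

lemma cyclo_one_dvd {N : ℕ} (hN : 1 < N) : ∃ c : ℤ, (Polynomial.cyclotomic N ℤ).eval 1 * c = N := by
  have h1 := Polynomial.prod_cyclotomic_eq_geom_sum (show 0 < N by omega) ℤ
  have h2 : N ∈ N.divisors.erase 1 := by
    rw [mem_erase, Nat.mem_divisors]
    exact ⟨by omega, dvd_rfl, by omega⟩
  have h3 : Polynomial.cyclotomic N ℤ ∣ ∑ i ∈ range N, Polynomial.X ^ i := by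
    rw [← h1]
    exact dvd_prod_of_mem _ h2
  obtain ⟨r, hr⟩ := h3
  have h4 := congrArg (Polynomial.eval 1) hr
  rw [Polynomial.eval_mul, Polynomial.eval_finsetSum] at h4
  refine ⟨r.eval 1, ?_⟩
  rw [← h4]
  simp

lemma cyclo_unit (hA : A.valuation (p : F) < 1) {N : ℕ} (hN : 1 < N) (hpN : N.Coprime p) :
    IsUnit ((Polynomial.cyclotomic N A).eval 1) := by
  obtain ⟨c, hc⟩ := cyclo_one_dvd hN
  have h1 : (Polynomial.cyclotomic N A).eval 1 = (((Polynomial.cyclotomic N ℤ).eval 1 : ℤ) : A) := by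
    rw [← Polynomial.map_cyclotomic_int N A, Polynomial.eval_one_map]
    simp
  have h2 : IsUnit ((((Polynomial.cyclotomic N ℤ).eval 1 : ℤ) : A) * ((c : ℤ) : A)) := by
    rw [← Int.cast_mul, hc, Int.cast_natCast]
    exact cast_unit A hA hpN
  rw [h1]
  exact isUnit_of_mul_isUnit_left h2

end

end Pool.Agent.Q53.GB
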