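import Mathlib
import Pool.Agent.Q53.GB.Bridge

/-!
Many unit values of `L`-functions in initial segments and intervals.
-/

set_option autoImplicit false

namespace Pool.Agent.Q53.GB

open Finset PowerSeries

variable {F : Type*} [Field F] (A : ValuationSubring F) {p N : ℕ}

lemma mem_of_pow {x : F} {n : ℕ} (hn : 0 < n) (hx : x ^ n = 1) : x ∈ A := by
  rcases A.mem_or_inv_mem x with h | h
  · exact h
  · have hx0 : x ≠ 0 := by
      rintro rfl
      rw [zero_pow hn.ne'] at hx
      exact zero_ne_one hx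
    have h1 : x = x⁻¹ ^ (n - 1) := by
      obtain ⟨k, rfl⟩ : ∃ k, n = k + 1 := ⟨n - 1, by omega⟩
      rw [Nat.add_sub_cancel, inv_pow]
      apply eq_inv_of_mul_eq_one_left
      rw [← hx]
      ring
    rw [h1]
    exact A.pow_mem h _

lemma psi_mem [NeZero N] (ψ : DirichletCharacter F N) (a : ZMod N) : ψ a ∈ A := by
  by_cases ha : IsUnit a
  · obtain ⟨u, rfl⟩ := ha
    refine mem_of_pow A (n := orderOf u) (orderOf_pos u) ?_
    rw [← map_pow, ← Units.val_pow_eq_pow_val, pow_orderOf_eq_one, Units.val_one, map_one]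
  · rw [MulChar.map_nonunit ψ ha]
    exact A.zero_mem

/-- the values in `A` -/
def psA [NeZero N] (ψ : DirichletCharacter F N) (a : ℕ) : A := ⟨ψ (a : ZMod N), psi_mem A ψ _⟩

/-- the polynomial over `A` -/
noncomputable def PA [NeZero N] (ψ : DirichletCharacter F N) : Polynomial A :=
  ∑ a ∈ range N, Polynomial.C (psA A ψ a) * Polynomial.X ^ a

lemma PA_map [NeZero N] (ψ : DirichletCharacter F N) : (PA A ψ).map A.subtype = PP ψ := by
  unfold PA PP
  rw [Polynomial.map_sum]
  refine sum_congr rfl fun a _ => ?_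
  rw [Polynomial.map_mul, Polynomial.map_C, Polynomial.map_pow, Polynomial.map_X]
  rfl

lemma PA_natDegree [NeZero N] (ψ : DirichletCharacter F N) : (PA A ψ).natDegree ≤ N - 1 := by
  unfold PA
  apply Polynomial.natDegree_sum_le_of_forall_le
  intro a ha
  rw [mem_range] at ha
  exact (Polynomial.natDegree_C_mul_X_pow_le _ _).trans (by omega)

lemma PA_coeff_one [NeZero N] (hN : 1 < N) (ψ : DirichletCharacter F N) :
    (PA A ψ).coeff 1 = 1 := by
  unfold PA
  rw [Polynomial.finsetSum_coeff, sum_eq_single 1]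
  · rw [Polynomial.coeff_C_mul, Polynomial.coeff_X_pow, if_pos rfl, mul_one]
    apply Subtype.ext
    unfold psA
    simp
  · intro b _ hb
    rw [Polynomial.coeff_C_mul, Polynomial.coeff_X_pow, if_neg (Ne.symm hb), mul_zero]
  · intro h
    exact absurd (mem_range.mpr hN) h

lemma exists_P3 [CharZero F] [NeZero N] (hN : 1 < N) {ψ : DirichletCharacter F N}
    (hψ : ψ.IsPrimitive) : ∃ P3 : Polynomial A, PA A ψ = Psi N A * P3 ∧
      P3.natDegree < N.totient := by
  have h1 : Psi N A ∣ PA A ψ := by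
    rw [← Polynomial.modByMonic_eq_zero_iff_dvd (Psi_monic N A)]
    apply Polynomial.map_injective A.subtype Subtype.val_injective
    rw [Polynomial.map_modByMonic _ (Psi_monic N A), PA_map, Psi_map, Polynomial.map_zero,
      Polynomial.modByMonic_eq_zero_iff_dvd (Psi_monic N F)]
    exact Psi_dvd hψ
  obtain ⟨P3, hP3⟩ := h1
  refine ⟨P3, hP3, ?_⟩
  have hne : P3 ≠ 0 := by
    rintro rfl
    have := PA_coeff_one A hN ψ
    rw [hP3, mul_zero, Polynomial.coeff_zero] at this
    exact zero_ne_one this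
  have h2 := PA_natDegree A ψ
  rw [hP3, (Psi_monic N A).natDegree_mul' hne] at h2
  have h3 := Psi_natDegree (show 0 < N by omega) A
  omega

lemma sub_eval₂ {R : Type*} [CommRing R] (a b : R⟦X⟧) (q : Polynomial R) :
    a - b ∣ q.eval₂ PowerSeries.C a - q.eval₂ PowerSeries.C b := by
  rw [← Polynomial.eval_map, ← Polynomial.eval_map]
  exact Polynomial.sub_dvd_eval_sub a b _

lemma GG_cyclo [CharZero F] [NeZero N] (hN : 1 < N) (ψ : DirichletCharacter F N)
    {P3 : Polynomial A} (h : PA A ψ = Psi N A * P3) :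
    GG ψ * (Polynomial.cyclotomic N F).eval₂ PowerSeries.C (exp F) =
      X * (P3.map A.subtype).eval₂ PowerSeries.C (exp F) := by
  have h1 := GG_mul' (show N ≠ 0 by omega) (show N ≠ 1 by omega) ψ
  have h2 : Polynomial.aeval (exp F) (PP ψ) = (PP ψ).eval₂ PowerSeries.C (exp F) := rfl
  have h3 : exp F ^ N - 1 = (Polynomial.X ^ N - 1 : Polynomial F).eval₂ PowerSeries.C (exp F) := by
    simp
  rw [h2, ← PA_map A, h, Polynomial.map_mul, Polynomial.eval₂_mul, Psi_map, h3,
    ← Psi_mul (show 0 < N by omega) F, Polynomial.eval₂_mul] at h1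
  have h4 : (Psi N F).eval₂ PowerSeries.C (exp F) ≠ 0 := by
    intro h5
    have h6 : exp F ^ N - 1 = 0 := by
      rw [h3, ← Psi_mul (show 0 < N by omega) F, Polynomial.eval₂_mul, h5, mul_zero]
    have h7 := congrArg (coeff 1) h6
    rw [exp_pow_eq_rescale_exp, map_sub, coeff_rescale, coeff_exp, map_zero] at h7
    simp [PowerSeries.coeff_one] at h7
    omega
  apply mul_right_cancel₀ h4
  linear_combination h1

theorem bridge [CharZero F] [NeZero N] (hp : p.Prime) (hA : A.valuation (p : F) < 1) (hN : 1 < N)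
    (hpN : N.Coprime p) {ψ : DirichletCharacter F N} {P3 : Polynomial A}
    (h : PA A ψ = Psi N A * P3) : ∃ g : A⟦X⟧,
      (Polynomial.cyclotomic N A).eval₂ PowerSeries.C (eA A p) * g =
        P3.eval₂ PowerSeries.C (eA A p) ∧
      ∀ m : ℕ, 1 ≤ m → m ≤ p → ((coeff (m - 1) g : A) : F) = gB m ψ / (m.factorial : F) := by
  have hu : IsUnit ((Polynomial.cyclotomic N A).eval₂ PowerSeries.C (eA A p)) := by
    rw [PowerSeries.isUnit_iff_constantCoeff, const_eval₂ (const_eA A hp)]
    exact cyclo_unit A hA hN hpN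
  obtain ⟨v, hv⟩ := hu.exists_right_inv
  refine ⟨v * P3.eval₂ PowerSeries.C (eA A p), by rw [← mul_assoc, hv, one_mul], ?_⟩
  set g := v * P3.eval₂ PowerSeries.C (eA A p) with hg
  have hgm : (Polynomial.cyclotomic N A).eval₂ PowerSeries.C (eA A p) * g =
      P3.eval₂ PowerSeries.C (eA A p) := by rw [hg, ← mul_assoc, hv, one_mul]
  -- over `F`
  have h1 := congrArg (PowerSeries.map A.subtype) hgm
  rw [map_mul, map_eval₂, map_eval₂, Polynomial.map_cyclotomic] at h1
  set eF := PowerSeries.map A.subtype (eA A p) with heF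
  set gF := PowerSeries.map A.subtype g with hgF
  have h2 : (X : F⟦X⟧) ^ p ∣ eF - exp F := by
    rw [X_pow_dvd_iff]
    intro n hn
    rw [map_sub, heF, coeff_map_eA A hp hA _ hn, coeff_exp]
    simp
  have h3 := h2.trans (sub_eval₂ eF (exp F) (Polynomial.cyclotomic N F))
  have h4 := h2.trans (sub_eval₂ eF (exp F) (P3.map A.subtype))
  have h5 := GG_cyclo A hN ψ h
  have h6 : (X : F⟦X⟧) ^ (p + 1) ∣ (Polynomial.cyclotomic N F).eval₂ PowerSeries.C (exp F) *
      (X * gF - GG ψ) := by
    obtain ⟨a, ha⟩ := h3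
    obtain ⟨b, hb⟩ := h4
    refine ⟨b - a * gF, ?_⟩
    rw [pow_succ]
    linear_combination X * h1 - X * gF * ha + X * hb - h5
  have hu2 : IsUnit ((Polynomial.cyclotomic N F).eval₂ PowerSeries.C (exp F)) := by
    rw [PowerSeries.isUnit_iff_constantCoeff, const_eval₂ (by simp)]
    rw [isUnit_iff_ne_zero]
    intro h7
    have h8 := cyclo_unit A hA hN hpN
    have h9 := h8.map A.subtype
    have h10 : A.subtype ((Polynomial.cyclotomic N A).eval 1) = (Polynomial.cyclotomic N F).eval 1 := by
      rw [← Polynomial.map_cyclotomic N A.subtype, Polynomial.eval_one_map]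
    rw [h10, h7] at h9
    exact not_isUnit_zero h9
  have h7 := hu2.dvd_mul_left.mp h6
  rw [X_pow_dvd_iff] at h7
  intro m hm1 hm2
  have h8 := h7 m (by omega)
  obtain ⟨j, rfl⟩ : ∃ j, m = j + 1 := ⟨m - 1, by omega⟩
  rw [map_sub, coeff_succ_X_mul, coeff_GG (by omega) ψ (by omega), sub_eq_zero, hgF, coeff_map] at h8
  rw [Nat.add_sub_cancel]
  exact h8

/-- `(1 - ψ(p) p^(m-1)) B_{m,ψ} / m` -/
noncomputable def lV (p m : ℕ) (ψ : DirichletCharacter F N) : F :=
  (1 - ψ (p : ZMod N) * (p : F) ^ (m - 1)) * gB m ψ / m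

lemma unit_iff [CharZero F] [NeZero N] (hp : p.Prime) (hA : A.valuation (p : F) < 1)
    {ψ : DirichletCharacter F N} {g : A⟦X⟧} {m : ℕ} (hm : 2 ≤ m) (hmp : m ≤ p)
    (hg : ((coeff (m - 1) g : A) : F) = gB m ψ / (m.factorial : F)) :
    A.valuation (lV p m ψ) = 1 ↔ coeff (m - 1) (PowerSeries.map (ph A) g) ≠ 0 := by
  set w : A := (1 - psA A ψ p * ((p : ℕ) : A) ^ (m - 1)) * (((m - 1).factorial : ℕ) : A) with hw
  have hwu : IsUnit w := by
    rw [← ph_ne, hw, map_mul, map_sub, map_one, map_mul, map_pow, map_natCast, ph_p A hA,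
      zero_pow (by omega), mul_zero, sub_zero, one_mul, ph_ne]
    exact fact_unit A hp hA (by omega)
  have h1 : lV p m ψ = ((w * coeff (m - 1) g : A) : F) := by
    rw [MulMemClass.coe_mul, hg, hw]
    unfold lV psA
    obtain ⟨j, rfl⟩ : ∃ j, m = j + 1 := ⟨m - 1, by omega⟩
    have h2 : ((j + 1 : ℕ) : F) ≠ 0 := Nat.cast_ne_zero.mpr (by omega)
    have h3 : ((j.factorial : ℕ) : F) ≠ 0 := Nat.cast_ne_zero.mpr (Nat.factorial_ne_zero j)
    rw [Nat.add_sub_cancel, Nat.factorial_succ]
    push_cast at h2 ⊢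
    field_simp
  rw [h1, ← ValuationSubring.valuation_eq_one_iff, coeff_map, ph_ne, IsUnit.mul_iff]
  exact ⟨fun h => h.2, fun h => ⟨hwu, h⟩⟩

open Classical in
/-- the `m` in `(a, K]` for which the value is a unit -/
noncomputable def UU (p : ℕ) (ψ : DirichletCharacter F N) (a K : ℕ) : Finset ℕ :=
  (Finset.Ioc a K).filter fun m => A.valuation (lV p m ψ) = 1

lemma exists_eta (hA : A.valuation (p : F) < 1) [NeZero N] (hN : 1 < N)
    (hpN : N.Coprime p) {ψ : DirichletCharacter F N} {P3 : Polynomial A}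
    (h : PA A ψ = Psi N A * P3) (hdeg : P3.natDegree < N.totient) :
    ∃ η : LL A, η ≠ 0 ∧ (Polynomial.cyclotomic N (LL A)).eval η = 0 ∧
      (Polynomial.derivative (Polynomial.cyclotomic N (LL A))).eval η ≠ 0 ∧
      (P3.map (ph A)).eval η ≠ 0 := by
  classical
  have hN0 : ((N : ℕ) : LL A) ≠ 0 := cast_ne A hA hpN
  have : NeZero ((N : ℕ) : LL A) := ⟨hN0⟩
  obtain ⟨ζ, hζ⟩ := HasEnoughRootsOfUnity.exists_primitiveRoot (LL A) N
  have hne : P3.map (ph A) ≠ 0 := by
    intro h1
    have h2 := congrArg (Polynomial.map (ph A)) h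
    rw [Polynomial.map_mul, h1, mul_zero] at h2
    have h3 := congrArg (fun q : Polynomial (LL A) => q.coeff 1) h2
    simp only [Polynomial.coeff_map, Polynomial.coeff_zero, PA_coeff_one A hN, map_one] at h3
    exact one_ne_zero h3
  have h1 : ∃ η ∈ primitiveRoots N (LL A), (P3.map (ph A)).eval η ≠ 0 := by
    by_contra hcon
    push Not at hcon
    apply hne
    apply Polynomial.eq_zero_of_natDegree_lt_card_of_eval_eq_zero' _ (primitiveRoots N (LL A)) hcon
    rw [hζ.card_primitiveRoots]
    exact (Polynomial.natDegree_map_le).trans_lt hdeg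
  obtain ⟨η, hη, hη2⟩ := h1
  rw [mem_primitiveRoots (by omega)] at hη
  have hη0 : η ≠ 0 := hη.ne_zero (by omega)
  have hroot : (Polynomial.cyclotomic N (LL A)).eval η = 0 :=
    (Polynomial.isRoot_cyclotomic_iff.mpr hη : _)
  refine ⟨η, hη0, hroot, ?_, hη2⟩
  intro h2
  have h3 := congrArg Polynomial.derivative (Psi_mul (show 0 < N by omega) (LL A))
  rw [Polynomial.derivative_mul, Polynomial.derivative_sub, Polynomial.derivative_one,
    Polynomial.derivative_X_pow, sub_zero] at h3
  have h4 := congrArg (Polynomial.eval η) h3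
  simp only [Polynomial.eval_add, Polynomial.eval_mul, h2, hroot, zero_mul, add_zero,
    Polynomial.eval_C, Polynomial.eval_pow, Polynomial.eval_X] at h4
  exact mul_ne_zero hN0 (pow_ne_zero _ hη0) h4.symm

theorem main_segment [CharZero F] [NeZero N] (hp : p.Prime) (hA : A.valuation (p : F) < 1)
    (hN : 1 < N) (hpN : N.Coprime p) {ψ : DirichletCharacter F N} (hψ : ψ.IsPrimitive) (K : ℕ)
    (hK : K ≤ p) : K < N.totient * ((UU A p ψ 0 K).card + 2) ^ 2 := by
  classical
  obtain ⟨P3, hP3, hdeg⟩ := exists_P3 A hN hψ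
  obtain ⟨g, hg1, hg2⟩ := bridge A hp hA hN hpN hP3
  obtain ⟨η, hη0, hη1, hη2, hη3⟩ := exists_eta A hA hN hpN hP3 hdeg
  have hg3 := congrArg (PowerSeries.map (ph A)) hg1
  rw [map_mul, map_eval₂, map_eval₂, Polynomial.map_cyclotomic] at hg3
  set S : Finset ℕ := insert 0 ((UU A p ψ 0 K).image fun m => m - 1) with hS
  have hScard : S.card ≤ (UU A p ψ 0 K).card + 1 :=
    (card_insert_le _ _).trans (Nat.add_le_add_right card_image_le 1)
  have hcore := core (κ := LL A) (e := eL A p) (eL_unit A hp hA) (K := K)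
    ((pow_dvd_pow _ (by omega)).trans (eL_deriv A hp hA))
    (Q := Polynomial.cyclotomic N (LL A)) (m := N.totient)
    (Polynomial.natDegree_cyclotomic _ _).le hη0 hη1 hη2 (f := PowerSeries.map (ph A) g)
    (R0 := (P3.map (ph A)).map Polynomial.C) (n0 := N.totient) (d0 := 0)
    (by
      intro k
      rw [Polynomial.coeff_map]
      refine ⟨(Polynomial.natDegree_C _).le, fun hk => ?_⟩
      rw [Polynomial.coeff_eq_zero_of_natDegree_lt
        (lt_of_le_of_lt Polynomial.natDegree_map_le (by omega)), map_zero])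
    (by
      rw [Polynomial.eval_map, Polynomial.eval₂_at_apply, Polynomial.C_ne_zero]
      exact hη3)
    (by
      rw [ev_map, ev_map]
      change (X : (LL A)⟦X⟧) ^ K ∣ _
      have : (Polynomial.cyclotomic N (LL A)).eval₂ PowerSeries.C (eL A p) *
          PowerSeries.map (ph A) g = (P3.map (ph A)).eval₂ PowerSeries.C (eL A p) := hg3
      rw [this, sub_self]
      exact dvd_zero _) S
    (by
      intro j hj hne
      rw [hS, mem_insert, mem_image]
      rcases Nat.eq_zero_or_pos j with h | h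
      · exact Or.inl h
      · right
        refine ⟨j + 1, ?_, by omega⟩
        unfold UU
        rw [mem_filter, mem_Ioc]
        refine ⟨⟨by omega, by omega⟩, ?_⟩
        rw [unit_iff A hp hA (by omega) (by omega) (hg2 (j + 1) (by omega) (by omega))]
        simpa using hne)
    (fun k h1 h2 => cast_ne A hA (Nat.coprime_of_lt_prime (by omega) (by omega) hp).symm)
  refine hcore.trans_le ?_
  have h1 : (N.totient + N.totient * S.card) * (0 + S.card + 1) = N.totient * (S.card + 1) ^ 2 := by
    ring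
  rw [h1]
  exact Nat.mul_le_mul_left _ (Nat.pow_le_pow_left (by omega) 2)

theorem main_interval [CharZero F] [NeZero N] (hp : p.Prime) (hA : A.valuation (p : F) < 1)
    (hN : 1 < N) (hpN : N.Coprime p) {ψ : DirichletCharacter F N} (hψ : ψ.IsPrimitive) (a K : ℕ)
    (ha : 1 ≤ a) (hK : K ≤ p) : K < (N.totient * ((UU A p ψ a K).card + 1) + 1) *
      (a + (UU A p ψ a K).card) := by
  classical
  obtain ⟨P3, hP3, hdeg⟩ := exists_P3 A hN hψ
  obtain ⟨g, hg1, hg2⟩ := bridge A hp hA hN hpN hP3
  obtain ⟨η, hη0, hη1, hη2, hη3⟩ := exists_eta A hA hN hpN hP3 hdeg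
  have hg3 := congrArg (PowerSeries.map (ph A)) hg1
  rw [map_mul, map_eval₂, map_eval₂, Polynomial.map_cyclotomic] at hg3
  set gL := PowerSeries.map (ph A) g with hgL
  set W : Polynomial (LL A) := PowerSeries.trunc a gL with hW
  have hWdeg : W.natDegree ≤ a - 1 := by
    obtain ⟨b, rfl⟩ : ∃ b, a = b + 1 := ⟨a - 1, by omega⟩
    have := PowerSeries.natDegree_trunc_lt gL b
    rw [hW]
    omega
  set S : Finset ℕ := (UU A p ψ a K).image fun m => m - 1 with hS
  have hScard : S.card ≤ (UU A p ψ a K).card := card_image_le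
  have hcore := core (κ := LL A) (e := eL A p) (eL_unit A hp hA) (K := K)
    ((pow_dvd_pow _ (by omega)).trans (eL_deriv A hp hA))
    (Q := Polynomial.cyclotomic N (LL A)) (m := N.totient)
    (Polynomial.natDegree_cyclotomic _ _).le hη0 hη1 hη2 (f := gL - (W : (LL A)⟦X⟧))
    (R0 := (P3.map (ph A)).map Polynomial.C -
      Polynomial.C W * (Polynomial.cyclotomic N (LL A)).map Polynomial.C)
    (n0 := N.totient + 1) (d0 := a - 1)
    (by
      intro k
      have c1 : ((P3.map (ph A)).map Polynomial.C).coeff k =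
        Polynomial.C ((P3.map (ph A)).coeff k) := Polynomial.coeff_map _ _
      have c2 : ((Polynomial.cyclotomic N (LL A)).map Polynomial.C).coeff k =
        Polynomial.C ((Polynomial.cyclotomic N (LL A)).coeff k) := Polynomial.coeff_map _ _
      rw [Polynomial.coeff_sub, Polynomial.coeff_C_mul, c1, c2]
      constructor
      · refine (Polynomial.natDegree_sub_le _ _).trans (max_le ?_ ?_)
        · rw [Polynomial.natDegree_C]
          omega
        · refine (Polynomial.natDegree_mul_le).trans ?_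
          rw [Polynomial.natDegree_C]
          omega
      · intro hk
        rw [Polynomial.coeff_eq_zero_of_natDegree_lt
          (lt_of_le_of_lt Polynomial.natDegree_map_le (by omega)), map_zero,
          Polynomial.coeff_eq_zero_of_natDegree_lt (p := Polynomial.cyclotomic N (LL A))
          (by rw [Polynomial.natDegree_cyclotomic]; omega), map_zero, mul_zero, sub_zero])
    (by
      rw [Polynomial.eval_sub, Polynomial.eval_mul, Polynomial.eval_map, Polynomial.eval_map,
        Polynomial.eval₂_at_apply, Polynomial.eval₂_at_apply, hη1, map_zero, mul_zero, sub_zero,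
        Polynomial.C_ne_zero]
      exact hη3)
    (by
      rw [map_sub, map_mul, ev_map, ev_map, ev_C]
      have : (Polynomial.cyclotomic N (LL A)).eval₂ PowerSeries.C (eL A p) *
          gL = (P3.map (ph A)).eval₂ PowerSeries.C (eL A p) := hg3
      have h2 : (Polynomial.cyclotomic N (LL A)).eval₂ PowerSeries.C (eL A p) *
          (gL - (W : (LL A)⟦X⟧)) - ((P3.map (ph A)).eval₂ PowerSeries.C (eL A p) -
          (W : (LL A)⟦X⟧) * (Polynomial.cyclotomic N (LL A)).eval₂ PowerSeries.C (eL A p)) = 0 := by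
        linear_combination this
      rw [h2]
      exact dvd_zero _) S
    (by
      intro j hj hne
      rw [hS, mem_image]
      rw [map_sub, Polynomial.coeff_coe, hW, coeff_trunc] at hne
      have hja : a ≤ j := by
        by_contra h
        rw [if_pos (by omega), sub_self] at hne
        exact hne rfl
      rw [if_neg (by omega), sub_zero] at hne
      refine ⟨j + 1, ?_, by omega⟩
      unfold UU
      rw [mem_filter, mem_Ioc]
      refine ⟨⟨by omega, by omega⟩, ?_⟩
      rw [unit_iff A hp hA (by omega) (by omega) (hg2 (j + 1) (by omega) (by omega)),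
        Nat.add_sub_cancel, ← hgL]
      exact hne)
    (fun k h1 h2 => cast_ne A hA (Nat.coprime_of_lt_prime (by omega) (by omega) hp).symm)
  refine hcore.trans_le ?_
  have h1 : (N.totient + 1 + N.totient * S.card) * (a - 1 + S.card + 1) =
      (N.totient * (S.card + 1) + 1) * (a + S.card) := by
    have : a - 1 + S.card + 1 = a + S.card := by omega
    rw [this]
    ring
  rw [h1]
  exact Nat.mul_le_mul (by gcongr) (by omega)

end Pool.Agent.Q53.GB
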